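import Pool.Agent.H.MP_6bdc24_co.Draw

namespace Pool.Agent.Results.MP_6bdc24_co.NotExp

open Pool.Agent.H.MP_6bdc24_co

theorem result : ∀ c : ℝ, 1 < c → ∃ (V E : Type) (_ : Fintype V) (_ : Fintype E)
    (src tgt : E → V), ThreeEdgeConnected src tgt ∧ Nonplanar src tgt ∧
      (∃ D : Drawing src tgt Torus, D.RepAtLeast 5) ∧
      (({C : Set E | Peripheral src tgt C}.ncard : ℕ) : ℝ) < c ^ Fintype.card V := by
  intro c hc
  obtain ⟨n, hn⟩ := pow_unbounded_of_one_lt ((Nat.card (Set GE) : ℕ) : ℝ) hc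
  refine ⟨VV n, EE n, inferInstance, inferInstance, src n, tgt n, threeEC n, nonplanar n,
    ⟨drawing n, rep n⟩, ?_⟩
  have h1 : (({C : Set (EE n) | Peripheral (src n) (tgt n) C}.ncard : ℕ) : ℝ) ≤
      ((Nat.card (Set GE) : ℕ) : ℝ) := by exact_mod_cast count_le n
  refine lt_of_le_of_lt h1 (hn.trans_le (pow_le_pow_right₀ hc.le ?_))
  simp

end Pool.Agent.Results.MP_6bdc24_co.NotExp
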